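import Mathlib

namespace Pool.Agent.Results.MP_c4013e_an.No

open Filter Topology Finset

section Defs

variable {X : Type} [AddCommGroup X] [Module ℝ X]

/-- quasi-norm -/
def QNorm (N : X → ℝ) : Prop :=
  (∀ x, 0 ≤ N x) ∧ (∀ x, N x = 0 → x = 0) ∧ (∀ (c : ℝ) x, N (c • x) = |c| * N x) ∧
    ∃ κ : ℝ, 1 ≤ κ ∧ ∀ x y, N (x + y) ≤ κ * (N x + N y)

/-- completeness for a quasi-norm -/
def QComplete (N : X → ℝ) : Prop :=
  ∀ u : ℕ → X, (∀ ε > 0, ∃ K, ∀ i ≥ K, ∀ j ≥ K, N (u i - u j) < ε) →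
    ∃ x, Tendsto (fun i => N (u i - x)) atTop (𝓝 0)

/-- basis with its biorthogonal functionals -/
def IsBasis (N : X → ℝ) (x : ℕ → X) (f : ℕ → X →ₗ[ℝ] ℝ) : Prop :=
  (∀ z, ∀ ε > 0, ∃ y ∈ Submodule.span ℝ (Set.range x), N (z - y) < ε) ∧
  (∀ k n, f k (x n) = if k = n then 1 else 0) ∧
  (∃ c > 0, ∀ n, c ≤ N (x n)) ∧ (∃ C, ∀ n, N (x n) ≤ C) ∧ ∃ C, ∀ n z, |f n z| ≤ C * N z

/-- the product of the two fundamental functions is at most a constant times `m` -/
def Bidem (N : X → ℝ) (x : ℕ → X) (f : ℕ → X →ₗ[ℝ] ℝ) : Prop :=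
  ∃ C : ℝ, ∀ m : ℕ, 1 ≤ m → ∀ A B : Finset ℕ, A.card ≤ m → B.card ≤ m → ∀ z, N z ≤ 1 →
    N (∑ n ∈ A, x n) * |(∑ n ∈ B, f n) z| ≤ C * m

/-- the subspace has an equivalent `p`-norm -/
def HasPNorm (N : X → ℝ) (p : ℝ) (Y : Submodule ℝ X) : Prop :=
  ∃ M : Y → ℝ, QNorm M ∧ (∀ y z, M (y + z) ^ p ≤ M y ^ p + M z ^ p) ∧
    ∃ C : ℝ, 1 ≤ C ∧ ∀ y : Y, C⁻¹ * N y ≤ M y ∧ M y ≤ C * N y

end Defs

/-- weights -/
noncomputable def w (i : ℕ) : ℝ := √(i + 1 : ℕ) - √i

theorem w_nonneg (i : ℕ) : 0 ≤ w i := sub_nonneg.2 (Real.sqrt_le_sqrt (by simp))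

theorem w_anti : Antitone w := antitone_nat_of_succ_le fun i => by
  have h1 := Real.sq_sqrt (i.cast_nonneg (α := ℝ))
  have h2 := Real.sq_sqrt ((i + 1).cast_nonneg (α := ℝ))
  have h3 := Real.sq_sqrt ((i + 1 + 1).cast_nonneg (α := ℝ))
  have h4 := Real.sqrt_nonneg (i : ℝ)
  have h5 := Real.sqrt_nonneg ((i + 1 : ℕ) : ℝ)
  have h6 := Real.sqrt_nonneg ((i + 1 + 1 : ℕ) : ℝ)
  simp only [w]
  generalize √(i : ℝ) = a at *
  generalize √((i + 1 : ℕ) : ℝ) = b at *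
  generalize √((i + 1 + 1 : ℕ) : ℝ) = c at *
  push_cast at *
  have : a + c ≤ 2 * b := abs_le_of_sq_le_sq' (by nlinarith [sq_nonneg (a - c)]) (by positivity) |>.2
  linarith

theorem w_sum (K : ℕ) : ∑ i ∈ range K, w i = √K := by
  simpa [w] using sum_range_sub (fun i : ℕ => √(i : ℝ)) K

theorem w_set (S : Finset ℕ) : ∑ i ∈ S, w i ≤ √S.card := by
  induction S using Finset.induction_on_max with
  | empty => simp
  | insert a s h ih =>
    have h1 : a ∉ s := fun h1 => (h a h1).false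
    have h2 : s.card ≤ a := by simpa using card_le_card fun x hx => mem_range.2 (h x hx)
    rw [sum_insert h1, card_insert_of_notMem h1]
    have := w_anti h2
    simp only [w] at this ⊢ ih
    linarith

theorem w_shift (M : ℕ) (S : Finset ℕ) : ∑ i ∈ S, (w i - w (M + i)) ≤ √M := by
  obtain ⟨K, hK⟩ := S.exists_nat_subset_range
  refine (sum_le_sum_of_subset_of_nonneg hK fun i _ _ =>
    sub_nonneg.2 (w_anti (Nat.le_add_left _ _))).trans ?_
  have h1 := sum_range_add w M K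
  rw [w_sum, w_sum] at h1
  rw [sum_sub_distrib, w_sum]
  have : √(K : ℝ) ≤ √(M + K : ℕ) := Real.sqrt_le_sqrt (by simp)
  linarith

/-- weighted sums -/
noncomputable def V (x : ℕ → ℝ) (A : Finset ℕ) (ρ : ℕ → ℕ) : ℝ := ∑ n ∈ A, w (ρ n) * √|x n|

/-- all weighted sums are at most `c` -/
def Le (x : ℕ → ℝ) (c : ℝ) : Prop := ∀ (A : Finset ℕ) (ρ : ℕ → ℕ), Set.InjOn ρ A → V x A ρ ≤ c

/-- square root of the Lorentz quasi-norm -/
noncomputable def Φ (x : ℕ → ℝ) : ℝ := sSup {v | ∃ A : Finset ℕ, ∃ ρ, Set.InjOn ρ A ∧ V x A ρ = v}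

theorem ne (x : ℕ → ℝ) : {v | ∃ A : Finset ℕ, ∃ ρ, Set.InjOn ρ A ∧ V x A ρ = v}.Nonempty :=
  ⟨_, ∅, id, by simp, rfl⟩

theorem Le.Φ_le {x : ℕ → ℝ} {c : ℝ} (h : Le x c) : Φ x ≤ c :=
  csSup_le (ne x) (by rintro _ ⟨A, ρ, h1, rfl⟩; exact h A ρ h1)

theorem Le.self {x : ℕ → ℝ} {c : ℝ} (h : Le x c) : Le x (Φ x) := fun A ρ h1 =>
  le_csSup ⟨c, by rintro _ ⟨A, ρ, h1, rfl⟩; exact h A ρ h1⟩ ⟨A, ρ, h1, rfl⟩

theorem Le.nonneg {x : ℕ → ℝ} {c : ℝ} (h : Le x c) : 0 ≤ c := by simpa [V] using h ∅ id (by simp)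

theorem Le.mono {x y : ℕ → ℝ} {c d : ℝ} (h : Le x c) (h1 : ∀ n, |y n| ≤ |x n|) (h2 : c ≤ d) :
    Le y d := fun A ρ h3 => (sum_le_sum fun n _ =>
  mul_le_mul_of_nonneg_left (Real.sqrt_le_sqrt (h1 n)) (w_nonneg _)).trans ((h A ρ h3).trans h2)

theorem sqrt_add (a b : ℝ) : √|a + b| ≤ √|a| + √|b| := by
  rw [Real.sqrt_le_left (by positivity), add_sq, Real.sq_sqrt (abs_nonneg _),
    Real.sq_sqrt (abs_nonneg _)]
  have : 0 ≤ 2 * √|a| * √|b| := by positivity
  linarith [abs_add_le a b]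

theorem Le.add {x y : ℕ → ℝ} {c d : ℝ} (h : Le x c) (h' : Le y d) : Le (x + y) (c + d) :=
  fun A ρ h3 => by
    refine le_trans ?_ (add_le_add (h A ρ h3) (h' A ρ h3))
    simp only [V, ← sum_add_distrib, ← mul_add]
    exact sum_le_sum fun n _ => mul_le_mul_of_nonneg_left (sqrt_add _ _) (w_nonneg _)

theorem Le.smul {x : ℕ → ℝ} {c : ℝ} (h : Le x c) (a : ℝ) : Le (a • x) (√|a| * c) := fun A ρ h3 => by
  refine le_trans (le_of_eq ?_) (mul_le_mul_of_nonneg_left (h A ρ h3) (Real.sqrt_nonneg _))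
  simp only [V, mul_sum, Pi.smul_apply, smul_eq_mul, abs_mul, Real.sqrt_mul (abs_nonneg a)]
  exact sum_congr rfl fun n _ => by ring

theorem sorted (x : ℕ → ℝ) (A : Finset ℕ) : ∃ ρ, Set.InjOn ρ A ∧ (∀ n ∈ A, ρ n < A.card) ∧
    ∑ n ∈ A, w (ρ n) = √A.card ∧ ∑ n ∈ A, |x n| ≤ V x A ρ ^ 2 := by
  induction A using Finset.induction_on_min_value (fun n => |x n|) with
  | empty => exact ⟨id, by simp, by simp, by simp, by simp [V]⟩
  | insert a s ha h ih =>
    obtain ⟨ρ, h1, h2, h3, h4⟩ := ih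
    have h5 : ∀ n ∈ s, Function.update ρ a s.card n = ρ n := fun n hn =>
      Function.update_of_ne (ne_of_mem_of_not_mem hn ha) _ _
    refine ⟨Function.update ρ a s.card, ?_, ?_, ?_, ?_⟩
    · rw [coe_insert, Set.injOn_insert (by simpa using ha)]
      refine ⟨h1.congr fun n hn => (h5 n hn).symm, ?_⟩
      rintro ⟨n, hn, h6⟩
      rw [h5 n hn, Function.update_self] at h6
      exact (h2 n hn).ne h6
    · rw [card_insert_of_notMem ha]
      intro n hn
      rcases mem_insert.1 hn with rfl | hn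
      · simp
      · rw [h5 n hn]
        exact (h2 n hn).trans (Nat.lt_succ_self _)
    · rw [sum_insert ha, card_insert_of_notMem ha, Function.update_self,
        sum_congr rfl fun n hn => by rw [h5 n hn], h3, w]
      ring
    · have h6 : √s.card * √|x a| ≤ V x s ρ := by
        rw [← h3, sum_mul]
        exact sum_le_sum fun n hn =>
          mul_le_mul_of_nonneg_left (Real.sqrt_le_sqrt (h n hn)) (w_nonneg _)
      have h7 : V x (insert a s) (Function.update ρ a s.card) = w s.card * √|x a| + V x s ρ := by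
        rw [V, sum_insert ha, Function.update_self, sum_congr rfl fun n hn => by rw [h5 n hn], V]
      have h8 : w s.card ^ 2 + 2 * w s.card * √s.card = 1 := by
        have h9 := Real.sq_sqrt (s.card.cast_nonneg (α := ℝ))
        have h10 := Real.sq_sqrt ((s.card + 1).cast_nonneg (α := ℝ))
        simp only [w]
        push_cast at *
        linarith
      have h9 := Real.sq_sqrt (abs_nonneg (x a))
      have h10 := mul_le_mul_of_nonneg_left h6 (mul_nonneg (w_nonneg s.card) (Real.sqrt_nonneg |x a|))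
      rw [h7, sum_insert ha]
      generalize √|x a| = t at *
      have h11 : t ^ 2 * (w s.card ^ 2 + 2 * w s.card * √s.card) = |x a| := by rw [h8, h9, mul_one]
      nlinarith

theorem Le.l1 {x : ℕ → ℝ} {c : ℝ} (h : Le x c) (A : Finset ℕ) : ∑ n ∈ A, |x n| ≤ c ^ 2 := by
  obtain ⟨ρ, h1, -, -, h2⟩ := sorted x A
  exact h2.trans (pow_le_pow_left₀
    (sum_nonneg fun n _ => mul_nonneg (w_nonneg _) (Real.sqrt_nonneg _)) (h A ρ h1) 2)

theorem Le.sup {x : ℕ → ℝ} {c : ℝ} (h : Le x c) (n : ℕ) : |x n| ≤ c ^ 2 := by simpa using h.l1 {n}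

theorem le_ind {x : ℕ → ℝ} {A : Finset ℕ} {c : ℝ} (h : ∀ n, |x n| ≤ if n ∈ A then c else 0) :
    Le x (√c * √A.card) := fun B ρ h1 => by
  calc V x B ρ ≤ ∑ n ∈ B, if n ∈ A then √c * w (ρ n) else 0 := sum_le_sum fun n _ => by
        have h2 := Real.sqrt_le_sqrt (h n)
        have h3 := w_nonneg (ρ n)
        split_ifs at h2 ⊢
        · nlinarith
        · rw [Real.sqrt_zero] at h2
          nlinarith
    _ = √c * ∑ i ∈ (B ∩ A).image ρ, w i := by
        rw [sum_image (h1.mono (by simp)), ← sum_filter, filter_mem_eq_inter, mul_sum]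
    _ ≤ _ := mul_le_mul_of_nonneg_left ((w_set _).trans (Real.sqrt_le_sqrt (by
        exact_mod_cast card_image_le.trans (card_le_card inter_subset_right)))) (Real.sqrt_nonneg _)

/-- tails -/
def tail (N : ℕ) (x : ℕ → ℝ) : ℕ → ℝ := fun n => if n < N then 0 else x n

theorem tail_le {N N' : ℕ} (h : N ≤ N') (x : ℕ → ℝ) (n : ℕ) : |tail N' x n| ≤ |tail N x n| := by
  simp only [tail]
  split_ifs <;> first | omega | simp

theorem tail_add (N : ℕ) (x y : ℕ → ℝ) : tail N (x + y) = tail N x + tail N y := by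
  ext n
  simp only [tail, Pi.add_apply]
  split_ifs <;> simp

/-- the Lorentz sequence space -/
def L : Submodule ℝ (ℕ → ℝ) where
  carrier := {x | ∀ ε > 0, ∃ N, Le (tail N x) ε}
  zero_mem' ε hε := ⟨0, fun A ρ _ => by simpa [V, tail] using hε.le⟩
  add_mem' {x y} hx hy ε hε := by
    obtain ⟨N, h1⟩ := hx _ (half_pos hε)
    obtain ⟨N', h2⟩ := hy _ (half_pos hε)
    refine ⟨max N N', ?_⟩
    rw [tail_add, ← add_halves ε]
    exact (h1.mono (tail_le (le_max_left _ _) x) le_rfl).add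
      (h2.mono (tail_le (le_max_right _ _) y) le_rfl)
  smul_mem' a x hx ε hε := by
    obtain ⟨N, h1⟩ := hx (ε / (√|a| + 1)) (by positivity)
    refine ⟨N, (h1.smul a).mono (fun n => ?_) ?_⟩
    · simp only [tail, Pi.smul_apply]
      split_ifs <;> simp
    · rw [mul_div_assoc', div_le_iff₀ (by positivity)]
      nlinarith

theorem le_Φ (x : L) : Le x.1 (Φ x) := by
  obtain ⟨N, h⟩ := x.2 1 one_pos
  have h1 := (le_ind (x := x.1 - tail N x) (A := range N) (c := ∑ i ∈ range N, |x.1 i|)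
    fun n => by
      simp only [tail, mem_range, Pi.sub_apply]
      split_ifs with h1
      · simpa using single_le_sum (fun i _ => abs_nonneg (x.1 i)) (mem_range.2 h1)
      · simp).add h
  rw [sub_add_cancel] at h1
  exact h1.self

/-- the quasi-norm -/
noncomputable def q (x : L) : ℝ := Φ x ^ 2

theorem Φ_smul (a : ℝ) (x : L) : Φ (a • x : L) = √|a| * Φ x := by
  refine le_antisymm ((le_Φ x).smul a).Φ_le ?_
  rcases eq_or_ne a 0 with rfl | ha
  · simpa using (le_Φ ((0 : ℝ) • x)).nonneg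
  have h := ((le_Φ (a • x)).smul a⁻¹).Φ_le
  rw [Submodule.coe_smul, inv_smul_smul₀ ha, abs_inv, Real.sqrt_inv] at h
  rwa [← le_div_iff₀' (by positivity), div_eq_inv_mul]

theorem q_smul (a : ℝ) (x : L) : q (a • x) = |a| * q x := by
  rw [q, Φ_smul, mul_pow, Real.sq_sqrt (abs_nonneg _), q]

theorem q_le {x : L} {c : ℝ} (h : Le x.1 c) : q x ≤ c ^ 2 :=
  pow_le_pow_left₀ (le_Φ x).nonneg h.Φ_le 2

theorem q_norm : QNorm q := by
  refine ⟨fun x => sq_nonneg _, fun x hx => Subtype.ext (funext fun n => ?_), q_smul, 2, one_le_two,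
    fun x y => ?_⟩
  · exact abs_nonpos_iff.1 (((le_Φ x).sup n).trans hx.le)
  · refine (q_le ((le_Φ x).add (le_Φ y))).trans ?_
    simp only [q]
    nlinarith [sq_nonneg (Φ x - Φ y)]

theorem q_complete : QComplete q := fun u hu => by
  have h1 : ∀ ε > 0, ∃ K, ∀ i ≥ K, ∀ j ≥ K, Le ((u i).1 - (u j).1) ε := fun ε hε => by
    obtain ⟨K, hK⟩ := hu (ε ^ 2) (by positivity)
    exact ⟨K, fun i hi j hj => (le_Φ (u i - u j)).mono (fun _ => le_rfl)
      (abs_le_of_sq_le_sq' (hK i hi j hj).le hε.le).2⟩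
  have h2 : ∀ n, ∃ a, Tendsto (fun i => (u i).1 n) atTop (𝓝 a) := fun n =>
    cauchySeq_tendsto_of_complete (Metric.cauchySeq_iff.2 fun ε hε => by
      obtain ⟨K, hK⟩ := hu ε hε
      exact ⟨K, fun i hi j hj => ((le_Φ (u i - u j)).sup n).trans_lt (hK i hi j hj)⟩)
  choose x hx using h2
  have h3 : ∀ ε > 0, ∃ K, ∀ i ≥ K, Le ((u i).1 - x) ε := fun ε hε => by
    obtain ⟨K, hK⟩ := h1 ε hε
    refine ⟨K, fun i hi A ρ h => le_of_tendsto (f := fun j => V ((u i).1 - (u j).1) A ρ)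
      (x := atTop) (tendsto_finsetSum _ fun n _ => ?_)
      ((eventually_ge_atTop K).mono fun j hj => hK i hi j hj A ρ h)⟩
    exact (((hx n).const_sub _).abs.sqrt).const_mul _
  have h4 : x ∈ L := fun ε hε => by
    obtain ⟨K, hK⟩ := h3 _ (half_pos hε)
    obtain ⟨N, hN⟩ := (u K).2 _ (half_pos hε)
    refine ⟨N, (((hK K le_rfl).mono (y := tail N (x - (u K).1)) (fun n => ?_) le_rfl).add hN).mono
      (fun n => ?_) (add_halves ε).le⟩
    · simp only [tail, Pi.sub_apply]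
      split_ifs <;> simp [abs_sub_comm]
    · rw [← tail_add, sub_add_cancel]
  refine ⟨⟨x, h4⟩, Metric.tendsto_atTop.2 fun ε hε => ?_⟩
  obtain ⟨K, hK⟩ := h3 √(ε / 2) (by positivity)
  refine ⟨K, fun i hi => ?_⟩
  have h5 := q_le (x := u i - ⟨x, h4⟩) (hK i hi)
  rw [Real.sq_sqrt (by positivity)] at h5
  rw [Real.dist_0_eq_abs, abs_of_nonneg (q_norm.1 _)]
  linarith

/-- unit vectors -/
def e (n : ℕ) : L := ⟨Pi.single n 1, fun ε hε => ⟨n + 1, fun A ρ _ => by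
  refine le_trans (le_of_eq (sum_eq_zero fun i _ => ?_)) hε.le
  simp only [tail]
  split_ifs with h
  · simp
  · simp [Pi.single_eq_of_ne (by omega : i ≠ n)]⟩⟩

/-- coordinates -/
def f (n : ℕ) : L →ₗ[ℝ] ℝ := (LinearMap.proj n).comp L.subtype

theorem sum_e (A : Finset ℕ) (c : ℕ → ℝ) (n : ℕ) :
    (∑ i ∈ A, c i • e i).1 n = if n ∈ A then c n else 0 := by
  simp [e, Finset.sum_apply, Pi.single_apply]

theorem q_ind (A : Finset ℕ) : q (∑ i ∈ A, e i) ≤ A.card := by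
  have h := q_le (le_ind (x := (∑ i ∈ A, (1 : ℝ) • e i).1) (A := A) (c := 1) fun n => by
    rw [sum_e]
    split_ifs <;> simp)
  simpa using h

theorem basis : IsBasis q e f := by
  refine ⟨fun z ε hε => ?_, fun k n => by simp [e, f, Pi.single_apply], ⟨1, one_pos, fun n => ?_⟩,
    ⟨1, fun n => by simpa using q_ind {n}⟩, 1, fun n z => ((le_Φ z).sup n).trans_eq (one_mul _).symm⟩
  · obtain ⟨N, hN⟩ := z.2 √(ε / 2) (by positivity)
    refine ⟨∑ i ∈ range N, z.1 i • e i, Submodule.sum_mem _ fun i _ =>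
      Submodule.smul_mem _ _ (Submodule.subset_span ⟨i, rfl⟩), ?_⟩
    have h := q_le (x := z - ∑ i ∈ range N, z.1 i • e i) (hN.mono (fun n => by
      rw [Submodule.coe_sub, Pi.sub_apply, sum_e]
      simp only [tail, mem_range]
      split_ifs <;> simp) le_rfl)
    rw [Real.sq_sqrt (by positivity)] at h
    linarith
  · exact le_trans (by simp [e]) ((le_Φ (e n)).sup n)

theorem bidem : Bidem q e f := by
  refine ⟨1, fun m _ A B hA _ z hz => ?_⟩
  have h1 : |(∑ n ∈ B, f n) z| ≤ 1 := by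
    rw [LinearMap.sum_apply]
    exact (abs_sum_le_sum_abs _ _).trans (((le_Φ z).l1 B).trans hz)
  have h2 : (A.card : ℝ) ≤ m := by exact_mod_cast hA
  nlinarith [q_ind A, q_norm.1 (∑ i ∈ A, e i), abs_nonneg ((∑ n ∈ B, f n) z)]

theorem infinite : ¬ Module.Finite ℝ L := fun h => by
  have h1 : LinearIndependent ℝ e := linearIndependent_iff'.2 fun A c h1 i hi => by
    simpa [h1, hi] using (sum_e A c i).symm
  exact not_finite_iff_infinite.2 inferInstance h1.finite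

theorem unit {Y : Submodule ℝ L} {s : L} (hs : s ∈ Y) (h : s ≠ 0) :
    (q s)⁻¹ • s ∈ Y ∧ Φ ((q s)⁻¹ • s : L) = 1 := by
  have h1 : 0 < Φ s := (le_Φ s).nonneg.lt_of_ne' fun h1 => h (q_norm.2.1 s (by simp [q, h1]))
  refine ⟨Y.smul_mem _ hs, ?_⟩
  rw [Φ_smul, abs_inv, Real.sqrt_inv, q, abs_sq, Real.sqrt_sq h1.le, inv_mul_cancel₀ h1.ne']

theorem far {Y : Submodule ℝ L} (hY : ¬ Module.Finite ℝ Y) (N : ℕ) :
    ∃ y ∈ Y, Φ y.1 = 1 ∧ ∀ n < N, y.1 n = 0 := by
  set T : Y →ₗ[ℝ] Fin N → ℝ := LinearMap.pi fun i => (f i).comp Y.subtype with hT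
  obtain ⟨y, h1, h2⟩ : ∃ y, T y = 0 ∧ y ≠ 0 := by
    by_contra! h
    exact hY (Module.Finite.of_injective T fun a b hab =>
      sub_eq_zero.1 (h (a - b) (funext fun i => sub_eq_zero.2 (congrFun hab i))))
  obtain ⟨h3, h4⟩ := unit y.2 fun h => h2 (Subtype.ext h)
  refine ⟨_, h3, h4, fun n hn => ?_⟩
  have : y.1.1 n = 0 := congrFun h1 ⟨n, hn⟩
  simp [this]

theorem flat {Y : Submodule ℝ L} (hY : ¬ Module.Finite ℝ Y) {δ : ℝ} (h0 : 0 < δ) (h1 : δ ≤ 1)
    (N : ℕ) : ∃ y ∈ Y, Φ y.1 = 1 ∧ (∀ n < N, y.1 n = 0) ∧ ∀ n, |y.1 n| ≤ δ := by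
  by_contra! h
  have h2 : ∀ k, ∃ s ∈ Y, (∀ n < N, s.1 n = 0) ∧ (∀ n, |s.1 n| ≤ 2) ∧
      ∃ A : Finset ℕ, A.card = k ∧ ∀ n ∈ A, δ / 2 ≤ |s.1 n| := fun k => by
    induction k with
    | zero => exact ⟨0, Y.zero_mem, by simp, by simp, ∅, by simp, by simp⟩
    | succ k ih =>
      obtain ⟨s, h2, h3, h4, A, h5, h6⟩ := ih
      obtain ⟨N1, h7⟩ := s.2 √(δ / 2) (by positivity)
      obtain ⟨N2, h8⟩ := A.exists_nat_subset_range
      obtain ⟨u, h9, h10, h11⟩ := far hY (N + N1 + N2)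
      obtain ⟨a, ha⟩ := h u h9 h10 fun n hn => h11 n (by omega)
      have h12 : N + N1 + N2 ≤ a := not_lt.1 fun h12 => by
        rw [h11 a h12, abs_zero] at ha
        linarith
      have h13 : ∀ n, N + N1 + N2 ≤ n → |s.1 n| ≤ δ / 2 := fun n hn => by
        have := h7.sup n
        rwa [Real.sq_sqrt (half_pos h0).le, tail, if_neg (by omega)] at this
      refine ⟨s + u, Y.add_mem h2 h9, fun n hn => by simp [h3 n hn, h11 n (by omega)],
        fun n => ?_, insert a A, ?_, fun n hn => ?_⟩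
      · rcases lt_or_ge n (N + N1 + N2) with h14 | h14
        · simpa [h11 n h14] using h4 n
        · have h15 := (le_Φ u).sup n
          rw [h10] at h15
          exact (abs_add_le _ _).trans (by linarith [h13 n h14])
      · rw [card_insert_of_notMem fun h14 => by have := mem_range.1 (h8 h14); omega, h5]
      · rcases mem_insert.1 hn with rfl | hn
        · have h14 := abs_sub ((s + u).1 n) (s.1 n)
          rw [show (s + u).1 n - s.1 n = u.1 n by simp] at h14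
          linarith [h13 n h12]
        · simpa [h11 n (by have := mem_range.1 (h8 hn); omega)] using h6 n hn
  obtain ⟨k, hk⟩ := exists_nat_ge (4 / δ ^ 2)
  obtain ⟨s, h3, h4, h5, A, h6, h7⟩ := h2 k
  have h8 : k * (δ / 2) ≤ q s := by
    simpa [h6, q] using (card_nsmul_le_sum A _ _ h7).trans ((le_Φ s).l1 A)
  rw [div_le_iff₀ (by positivity)] at hk
  have h9 : 2 ≤ q s * δ := by nlinarith
  have h10 : 0 < q s := by nlinarith [q_norm.1 s]
  obtain ⟨h11, h12⟩ := unit h3 fun h11 => by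
    have := q_smul 0 s
    rw [h11] at h10 this
    simp_all
  obtain ⟨n, hn⟩ := h _ h11 h12 fun n hn => by simp [h4 n hn]
  rw [Submodule.coe_smul, Pi.smul_apply, smul_eq_mul, abs_mul, abs_of_pos (inv_pos.2 h10),
    ← div_eq_inv_mul, lt_div_iff₀ h10] at hn
  linarith [h5 n]

theorem grow {Y : Submodule ℝ L} (hY : ¬ Module.Finite ℝ Y) (s : L) {A : Finset ℕ} {ρ : ℕ → ℕ}
    (h : Set.InjOn ρ A) : ∃ y ∈ Y, Φ y.1 = 1 ∧ ∃ (A' : Finset ℕ) (ρ' : ℕ → ℕ), Set.InjOn ρ' A' ∧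
      V s.1 A ρ + 1 / 2 ≤ V (s + y).1 A' ρ' := by
  obtain ⟨M, hM⟩ := (A.image ρ).exists_nat_subset_range
  obtain ⟨N2, h1⟩ := A.exists_nat_subset_range
  set η : ℝ := 1 / (8 * (√M + 1)) with hη
  have h2 : 0 < η := by positivity
  have h3 : η * √M + η = 1 / 8 := by
    rw [hη]
    field_simp
  have h4 : η ≤ 1 / 8 := by nlinarith [Real.sqrt_nonneg (M : ℝ)]
  obtain ⟨N1, h5⟩ := s.2 η h2
  obtain ⟨y, h6, h7, h8, h9⟩ := flat hY (δ := η ^ 2) (by positivity) (by nlinarith) (N1 + N2)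
  have h10 := h5.mono (tail_le (Nat.le_add_right N1 N2) s.1) le_rfl
  set z := tail (N1 + N2) (s + y).1 with hz
  have h11 : y.1 = z + (-1 : ℝ) • tail (N1 + N2) s.1 := by
    ext n
    simp only [hz, tail, Pi.add_apply, Pi.smul_apply]
    split_ifs with h11
    · simp [h8 n h11]
    · simp
  have h12 : Le z (Φ (s + y).1) := (le_Φ (s + y)).mono (tail_le zero_le (s + y).1) le_rfl
  have h13 := (h12.self.add (h10.smul (-1))).Φ_le
  rw [← h11, h7] at h13
  obtain ⟨_, ⟨B, τ, h14, rfl⟩, h15⟩ := exists_lt_of_lt_csSup (ne z) (b := 3 / 4)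
    (by change _ < Φ z; simp at h13; linarith)
  have h16 : ∀ n, √|z n| ≤ 2 * η := fun n => by
    have h16 := (h10.sup n)
    have h17 := congrFun h11 n
    simp only [Pi.add_apply, Pi.smul_apply, smul_eq_mul] at h17
    have h18 := h9 n
    rw [Real.sqrt_le_left (by positivity)]
    rw [abs_le] at *
    constructor <;> nlinarith [h16.1, h16.2, h18.1, h18.2]
  have hA : ∀ n ∈ A, n < N1 + N2 ∧ ρ n < M := fun n hn =>
    ⟨by have := mem_range.1 (h1 hn); omega, mem_range.1 (hM (mem_image_of_mem ρ hn))⟩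
  refine ⟨y, h6, h7, A ∪ B.filter (N1 + N2 ≤ ·), fun n => if n < N1 + N2 then ρ n else M + τ n,
    fun a ha b hb hab => ?_, ?_⟩
  · simp only [coe_union, coe_filter, Set.mem_union, mem_coe, Set.mem_ofPred_eq] at ha hb
    simp only at hab
    rcases ha with ha | ha <;> rcases hb with hb | hb
    · rw [if_pos (hA a ha).1, if_pos (hA b hb).1] at hab
      exact h ha hb hab
    · rw [if_pos (hA a ha).1, if_neg hb.2.not_gt] at hab
      have := (hA a ha).2
      omega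
    · rw [if_pos (hA b hb).1, if_neg ha.2.not_gt] at hab
      have := (hA b hb).2
      omega
    · rw [if_neg ha.2.not_gt, if_neg hb.2.not_gt] at hab
      exact h14 ha.1 hb.1 (by omega)
  rw [V, V, sum_union (disjoint_left.2 fun n hn h17 => (mem_filter.1 h17).2.not_gt (hA n hn).1)]
  refine add_le_add (le_of_eq (sum_congr rfl fun n hn => ?_)) ?_
  · simp [(hA n hn).1, h8 n (hA n hn).1]
  have h17 : ∑ n ∈ B, (w (τ n) - w (M + τ n)) * √|z n| ≤ √M * (2 * η) := by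
    refine (sum_le_sum fun n _ => mul_le_mul_of_nonneg_left (h16 n)
      (sub_nonneg.2 (w_anti (Nat.le_add_left _ _)))).trans ?_
    rw [← sum_mul, ← sum_image (f := fun i => w i - w (M + i)) h14]
    exact mul_le_mul_of_nonneg_right (w_shift M _) (by positivity)
  simp only [sub_mul, sum_sub_distrib] at h17
  refine le_trans (b := ∑ n ∈ B, w (M + τ n) * √|z n|) (by simp only [V] at h15; nlinarith)
    (le_of_eq ?_)
  rw [sum_filter]
  refine sum_congr rfl fun n _ => ?_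
  simp only [hz, tail]
  rcases lt_or_ge n (N1 + N2) with h18 | h18
  · simp [h18, h18.not_ge]
  · simp [h18, h18.not_gt]

theorem no_norm {Y : Submodule ℝ L} (hY : ¬ Module.Finite ℝ Y) : ¬ HasPNorm q (3 / 4) Y := by
  rintro ⟨M, hM, h1, C, hC, h2⟩
  have h3 : ∀ k : ℕ, ∃ s : Y, M s ^ (3 / 4 : ℝ) ≤ k * C ^ (3 / 4 : ℝ) ∧
      ∃ (A : Finset ℕ) (ρ : ℕ → ℕ), Set.InjOn ρ A ∧ (k : ℝ) / 2 ≤ V s.1.1 A ρ := fun k => by
    induction k with
    | zero => exact ⟨(0 : ℝ) • 0, by rw [hM.2.2.1]; simp, ∅, id, by simp, by simp [V]⟩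
    | succ k ih =>
      obtain ⟨s, h3, A, ρ, h4, h5⟩ := ih
      obtain ⟨y, h6, h7, A', ρ', h8, h9⟩ := grow hY s.1 h4
      have h10 : M ⟨y, h6⟩ ^ (3 / 4 : ℝ) ≤ C ^ (3 / 4 : ℝ) :=
        Real.rpow_le_rpow (hM.1 _) (by simpa [q, h7] using (h2 ⟨y, h6⟩).2) (by norm_num)
      refine ⟨s + ⟨y, h6⟩, (h1 _ _).trans ?_, A', ρ', h8, le_trans ?_ h9⟩ <;> push_cast <;> linarith
  obtain ⟨k, hk⟩ := exists_nat_gt (8 * C ^ 3)
  obtain ⟨s, h4, A, ρ, h5, h6⟩ := h3 k
  have h7 : ((k : ℝ) / 2) ^ 2 ≤ C * M s := by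
    have h7 := (h2 s).1
    rw [inv_mul_le_iff₀ (by linarith)] at h7
    exact (pow_le_pow_left₀ (by positivity) (h6.trans (le_Φ s.1 A ρ h5)) 2).trans h7
  have h8 := pow_le_pow_left₀ (Real.rpow_nonneg (hM.1 s) _) h4 4
  rw [mul_pow, ← Real.rpow_natCast, ← Real.rpow_mul (hM.1 s), ← Real.rpow_natCast (C ^ _),
    ← Real.rpow_mul (by linarith), show (3 / 4 : ℝ) * (4 : ℕ) = (3 : ℕ) by norm_num,
    Real.rpow_natCast, Real.rpow_natCast] at h8
  have h9 := pow_le_pow_left₀ (by positivity) h7 3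
  have h10 : (0 : ℝ) < C ^ 3 := by positivity
  have h11 : (0 : ℝ) < k := by linarith
  have h12 : (k : ℝ) ^ 4 * k ^ 2 ≤ k ^ 4 * (8 * C ^ 3) ^ 2 := by
    rw [mul_pow] at h9
    nlinarith [mul_le_mul_of_nonneg_left h8 h10.le]
  have h13 := le_of_mul_le_mul_left h12 (by positivity)
  nlinarith

theorem result : ∃ (X : Type) (_ : AddCommGroup X) (_ : Module ℝ X) (N : X → ℝ),
    QNorm N ∧ QComplete N ∧ ¬ Module.Finite ℝ X ∧ (∃ x f, IsBasis N x f ∧ Bidem N x f) ∧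
    ∃ p ∈ Set.Ioo (0 : ℝ) 1, ∀ Y : Submodule ℝ X, ¬ Module.Finite ℝ Y → ¬ HasPNorm N p Y :=
  ⟨L, inferInstance, inferInstance, q, q_norm, q_complete, infinite, ⟨e, f, basis, bidem⟩,
    3 / 4, by norm_num, fun _ => no_norm⟩

end Pool.Agent.Results.MP_c4013e_an.No
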